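import Pool.Agent.H126R2.CDC.Main

set_option autoImplicit false

/-!
No smallest counterexample to the circuit double cover conjecture has a cyclic 4-edge-cut.
-/

namespace Pool.Agent.Results.MP_b1bfa0_co.NoSmallestCounterexample

open Finset
open Pool.Agent.H126R2.CDC (MGraph)

/-- `G` is bridgeless and has no circuit double cover. -/
def IsCounterexample {V E : Type} [Fintype V] [DecidableEq V] [Fintype E] [DecidableEq E]
    (G : MGraph V E) : Prop :=
  G.Bridgeless ∧ ¬ ∃ F : Multiset (Finset E), G.IsCDC F

/-- `G` is a counterexample, and no counterexample has a smaller number of vertices and edges. -/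
def IsSmallestCounterexample {V E : Type} [Fintype V] [DecidableEq V] [Fintype E]
    [DecidableEq E] (G : MGraph V E) : Prop :=
  IsCounterexample G ∧
    ∀ (V' E' : Type) [Fintype V'] [DecidableEq V'] [Fintype E'] [DecidableEq E']
      (G' : MGraph V' E'), IsCounterexample G' →
        Fintype.card V + Fintype.card E ≤ Fintype.card V' + Fintype.card E'

/-- The set of the edges with exactly one end in `X`. -/
def cut {V E : Type} [Fintype V] [DecidableEq V] [Fintype E] [DecidableEq E]
    (G : MGraph V E) (X : Finset V) : Finset E :=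
  univ.filter (fun e => (∃ v ∈ X, v ∈ G.ends e) ∧ ∃ v ∉ X, v ∈ G.ends e)

/-- `T` is an edge-cut, and at least two components of `G - T` contain a circuit: there is a set
`Y` of vertices which no edge outside `T` leaves, one circuit of `G - T` has all its vertices
in `Y`, and another one has all its vertices outside `Y`. -/
def IsCyclicCut {V E : Type} [Fintype V] [DecidableEq V] [Fintype E] [DecidableEq E]
    (G : MGraph V E) (T : Finset E) : Prop :=
  (∃ X : Finset V, X.Nonempty ∧ X ≠ univ ∧ T = cut G X) ∧
    ∃ Y : Finset V, cut G Y ⊆ T ∧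
      (∃ C, G.IsCircuit C ∧ Disjoint C T ∧ ∀ e ∈ C, ∀ v ∈ G.ends e, v ∈ Y) ∧
      (∃ C, G.IsCircuit C ∧ Disjoint C T ∧ ∀ e ∈ C, ∀ v ∈ G.ends e, v ∉ Y)

/-- Every finite bridgeless graph (loops and parallel edges allowed) has a circuit double cover;
hence no smallest counterexample to the circuit double cover conjecture has a cyclic edge-cut
consisting of four edges. -/
theorem result {V E : Type} [Fintype V] [DecidableEq V] [Fintype E] [DecidableEq E]
    (G : MGraph V E) :
    (G.Bridgeless → ∃ F : Multiset (Finset E), G.IsCDC F) ∧
      (IsSmallestCounterexample G → ¬ ∃ T : Finset E, T.card = 4 ∧ IsCyclicCut G T) :=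
  ⟨fun h => G.exists_cdc h, fun hG _ => hG.1.2 (G.exists_cdc hG.1.1)⟩

end Pool.Agent.Results.MP_b1bfa0_co.NoSmallestCounterexample
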